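import Mathlib
import Pool.Agent.R688.NP.Defs
import Pool.Agent.R688.NP.Fin

namespace Pool.Agent.Results.MP_27ef7a_al.Counterexample

open Pool.Agent.R688.NP

/-- There is a finitely generated soluble group in which every infinite subset contains different
elements `x`, `y` with `⟨x, x^y⟩` nilpotent-by-(polycyclic-by-finite), but which is not itself
nilpotent-by-(polycyclic-by-finite). -/
theorem result : ∃ (G : Type) (_ : Group G), Group.FG G ∧ Group.IsSolvable G ∧
    InfStarNP G ∧ ¬ NilPolyByFin G :=
  Pool.Agent.R688.NP.main

end Pool.Agent.Results.MP_27ef7a_al.Counterexample
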